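import Mathlib

/-! Subsets of `ℤ/n` with given sum: counting. -/

set_option autoImplicit false
set_option linter.all false

open Finset

namespace Pool.Agent.J4.H16.SD

section gen
variable {G : Type} [AddCommGroup G] [DecidableEq G]

/-- number of `j`-subsets of `S` with sum `z` -/
def c (S : Finset G) (j : ℕ) (z : G) : ℕ := ((S.powersetCard j).filter (fun T => ∑ t ∈ T, t = z)).card

theorem c_zero (S : Finset G) (z : G) : c S 0 z = if z = 0 then 1 else 0 := by
  unfold c
  rw [powersetCard_zero, filter_singleton]
  by_cases h : z = 0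
  · subst h
    simp
  · have : ¬ (∑ t ∈ (∅ : Finset G), t = z) := by
      rw [sum_empty]
      exact fun h' => h h'.symm
    rw [if_neg this, if_neg h, card_empty]

theorem c_insert {S : Finset G} {y : G} (hy : y ∉ S) (j : ℕ) (z : G) :
    c (insert y S) (j + 1) z = c S (j + 1) z + c S j (z - y) := by
  unfold c
  rw [powersetCard_succ_insert hy, filter_union, card_union_of_disjoint]
  · congr 1
    rw [filter_image, card_image_of_injOn]
    · congr 1
      ext T
      simp only [mem_filter, mem_powersetCard]
      constructor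
      · rintro ⟨⟨h1, h2⟩, h3⟩
        refine ⟨⟨h1, h2⟩, ?_⟩
        rw [sum_insert (fun h => hy (h1 h))] at h3
        rw [← h3]
        abel
      · rintro ⟨⟨h1, h2⟩, h3⟩
        refine ⟨⟨h1, h2⟩, ?_⟩
        rw [sum_insert (fun h => hy (h1 h)), h3]
        abel
    · intro A hA B hB hAB
      simp only [coe_filter, mem_powersetCard, Set.mem_setOf_eq] at hA hB
      have hA' : y ∉ A := fun h => hy (hA.1.1 h)
      have hB' : y ∉ B := fun h => hy (hB.1.1 h)
      rw [← erase_insert hA', ← erase_insert hB']
      exact congrArg (fun s => s.erase y) hAB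
  · rw [Finset.disjoint_left]
    intro T h1 h2
    simp only [mem_filter, mem_powersetCard, mem_image] at h1 h2
    obtain ⟨⟨A, hA, rfl⟩, -⟩ := h2
    exact hy (h1.1.1 (mem_insert_self _ _))

theorem c_total [Fintype G] (S : Finset G) (j : ℕ) : ∑ z, c S j z = S.card.choose j := by
  rw [← card_powersetCard]
  exact (card_eq_sum_card_fiberwise (fun T _ => mem_univ _)).symm

/-- translation -/
theorem c_univ [Fintype G] (j : ℕ) (z u : G) : c (univ : Finset G) j z ≤ c univ j (z + j • u) := by
  unfold c
  refine card_le_card_of_injOn (fun T => T.map (addRightEmbedding u)) ?_ ?_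
  · intro T hT
    simp only [coe_filter, mem_powersetCard, Set.mem_setOf_eq, subset_univ, true_and] at hT ⊢
    refine ⟨by rw [card_map]; exact hT.1, ?_⟩
    rw [sum_map]
    simp only [addRightEmbedding_apply]
    rw [sum_add_distrib, hT.2, sum_const, hT.1]
  · intro A _ B _ h
    exact map_injective _ h

end gen

variable {n : ℕ} [NeZero n]

theorem c_univ_const {j : ℕ} (hj : IsUnit (j : ZMod n)) (z z' : ZMod n) :
    c (univ : Finset (ZMod n)) j z = c univ j z' := by
  have key : ∀ z z' : ZMod n, c (univ : Finset (ZMod n)) j z ≤ c univ j z' := by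
    intro z z'
    obtain ⟨u, hu⟩ := hj
    have h := c_univ j z ((u⁻¹ : (ZMod n)ˣ) * (z' - z) : ZMod n)
    have e : z + j • (((u⁻¹ : (ZMod n)ˣ) : ZMod n) * (z' - z)) = z' := by
      rw [nsmul_eq_mul, ← mul_assoc, ← hu, Units.mul_inv, one_mul]
      ring
    rwa [e] at h
  exact le_antisymm (key _ _) (key _ _)

theorem unit_of_lt {j : ℕ} (h0 : j ≠ 0) (hj : j < n.minFac) : IsUnit (j : ZMod n) := by
  rw [ZMod.isUnit_iff_coprime]
  exact (Nat.coprime_of_lt_minFac h0 hj).symm

/-- the counts in `ℤ/n` without `0` -/
theorem c_star (n : ℕ) [NeZero n] : ∃ a : ℕ → ℤ, ∀ j < n.minFac, ∀ z : ZMod n,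
    (c ((univ : Finset (ZMod n)).erase 0) j z : ℤ) = a j + (-1) ^ j * (if z = 0 then 1 else 0) := by
  classical
  refine ⟨fun j => Nat.rec 0 (fun i ih => (c (univ : Finset (ZMod n)) (i + 1) 0 : ℤ) - ih) j, ?_⟩
  intro j
  induction j with
  | zero =>
    intro _ z
    rw [c_zero]
    split_ifs <;> simp
  | succ j ih =>
    intro hj z
    have h1 := c_insert (S := (univ : Finset (ZMod n)).erase 0) (y := 0) (by simp) j z
    rw [insert_erase (mem_univ _), sub_zero] at h1
    have h2 := ih (by omega) z
    have h3 := c_univ_const (n := n) (unit_of_lt (Nat.succ_ne_zero j) hj) z 0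
    have h4 : ((c ((univ : Finset (ZMod n)).erase 0) (j + 1) z : ℕ) : ℤ) =
        (c (univ : Finset (ZMod n)) (j + 1) 0 : ℤ) - (c ((univ : Finset (ZMod n)).erase 0) j z : ℤ) := by
      rw [← h3, h1]
      push_cast
      ring
    rw [h4, h2, pow_succ]
    simp only
    ring

/-- the counts in `ℤ/n` without `0` and `y` -/
theorem c_star2 (n : ℕ) [NeZero n] : ∃ e : ℕ → ℤ, ∀ j < n.minFac, ∀ y : ZMod n, y ≠ 0 → ∀ z : ZMod n,
    (c (((univ : Finset (ZMod n)).erase 0).erase y) j z : ℤ) =
      e j + (-1) ^ j * (((range (j + 1)).filter (fun i : ℕ => z = i * y)).card : ℤ) := by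
  classical
  obtain ⟨a, ha⟩ := c_star n
  refine ⟨fun j => Nat.rec 0 (fun i ih => a (i + 1) - ih) j, ?_⟩
  intro j
  induction j with
  | zero =>
    intro _ y hy z
    rw [c_zero]
    rw [show (range (0 + 1)) = {0} from rfl, filter_singleton]
    by_cases h : z = 0
    · simp [h]
    · simp [h]
  | succ j ih =>
    intro hj y hy z
    have hy' : y ∉ ((univ : Finset (ZMod n)).erase 0).erase y := by simp
    have h1 := c_insert hy' j z
    rw [insert_erase (by simp [hy])] at h1
    have h2 := ih (by omega) y hy (z - y)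
    have h3 := ha (j + 1) hj z
    have h4 : ((c (((univ : Finset (ZMod n)).erase 0).erase y) (j + 1) z : ℕ) : ℤ) =
        (c ((univ : Finset (ZMod n)).erase 0) (j + 1) z : ℤ) -
          (c (((univ : Finset (ZMod n)).erase 0).erase y) j (z - y) : ℤ) := by
      rw [h1]
      push_cast
      ring
    have h5 : ((range (j + 1 + 1)).filter (fun i : ℕ => z = i * y)).card =
        (if z = 0 then 1 else 0) + ((range (j + 1)).filter (fun i : ℕ => z - y = i * y)).card := by
      rw [card_filter, sum_range_succ', card_filter, add_comm]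
      congr 1
      · simp
      · refine sum_congr rfl fun i _ => ?_
        have : (z = ((i + 1 : ℕ) : ZMod n) * y) ↔ (z - y = (i : ZMod n) * y) := by
          push_cast
          constructor
          · intro h
            rw [h]
            ring
          · intro h
            linear_combination h
        simp only [this]
    rw [h4, h2, h3, h5, pow_succ]
    push_cast
    ring

end Pool.Agent.J4.H16.SD
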