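import Pool.Agent.J4.H16.SD.Count

/-! Subset-sum 1-designs on the nonzero elements of `ℤ/n`. -/

set_option autoImplicit false
set_option linter.all false

open Finset

namespace Pool.Agent.J4.H16.SD

/-- the `k`-element subsets of `ℤ/n` without `0` with sum `x` -/
def Blocks (n k : ℕ) [NeZero n] (x : ZMod n) : Finset (Finset (ZMod n)) :=
  (((univ : Finset (ZMod n)).erase 0).powersetCard k).filter (fun T => ∑ t ∈ T, t = x)

/-- 1-designs -/
def IsOneDesign (n k : ℕ) [NeZero n] (x : ZMod n) : Prop :=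
  (Blocks n k x).Nonempty ∧
    ∃ r : ℕ, ∀ y : ZMod n, y ≠ 0 → ((Blocks n k x).filter (fun T => y ∈ T)).card = r

variable {n : ℕ} [NeZero n]

theorem card_blocks (k : ℕ) (x : ZMod n) : (Blocks n k x).card = c ((univ : Finset (ZMod n)).erase 0) k x := rfl

theorem N_eq {y : ZMod n} (hy : y ≠ 0) (j : ℕ) (x : ZMod n) :
    ((Blocks n (j + 1) x).filter (fun T => y ∈ T)).card =
      c (((univ : Finset (ZMod n)).erase 0).erase y) j (x - y) := by
  classical
  have hy' : y ∉ ((univ : Finset (ZMod n)).erase 0).erase y := by simp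
  have h1 := c_insert hy' j x
  rw [insert_erase (by simp [hy])] at h1
  have h2 := card_filter_add_card_filter_not (s := Blocks n (j + 1) x) (fun T => y ∈ T)
  rw [card_blocks] at h2
  have h3 : ((Blocks n (j + 1) x).filter (fun T => ¬ y ∈ T)).card =
      c (((univ : Finset (ZMod n)).erase 0).erase y) (j + 1) x := by
    unfold c Blocks
    congr 1
    ext T
    simp only [mem_filter, mem_powersetCard, subset_erase]
    tauto
  omega

/-- the number of solutions -/
def M (k : ℕ) (x y : ZMod n) : ℕ := ((range k).filter (fun i : ℕ => x = ((i + 1 : ℕ) : ZMod n) * y)).card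

theorem N_form (n : ℕ) [NeZero n] : ∃ e : ℕ → ℤ, ∀ k, 1 ≤ k → k ≤ n.minFac → ∀ x y : ZMod n, y ≠ 0 →
    (((Blocks n k x).filter (fun T => y ∈ T)).card : ℤ) = e k + (-1) ^ (k - 1) * (M k x y : ℤ) := by
  obtain ⟨e, he⟩ := c_star2 n
  refine ⟨fun k => e (k - 1), fun k hk hkp x y hy => ?_⟩
  obtain ⟨j, rfl⟩ : ∃ j, k = j + 1 := ⟨k - 1, by omega⟩
  rw [N_eq hy, he j (by omega) y hy]
  simp only [add_tsub_cancel_right]
  congr 4
  refine filter_congr fun i _ => ?_
  push_cast
  constructor
  · intro h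
    linear_combination h
  · intro h
    rw [h]
    ring

theorem M_const {k : ℕ} (hk : 1 ≤ k) (hkp : k ≤ n.minFac) {x : ZMod n} (h : IsOneDesign n k x) {y y' : ZMod n}
    (hy : y ≠ 0) (hy' : y' ≠ 0) : M k x y = M k x y' := by
  obtain ⟨e, he⟩ := N_form n
  obtain ⟨-, r, hr⟩ := h
  have h1 := he k hk hkp x y hy
  have h2 := he k hk hkp x y' hy'
  rw [hr y hy] at h1
  rw [hr y' hy'] at h2
  have h3 : ((-1 : ℤ)) ^ (k - 1) * (M k x y : ℤ) = (-1) ^ (k - 1) * (M k x y' : ℤ) := by linarith
  have h4 : ((-1 : ℤ)) ^ (k - 1) ≠ 0 := by positivity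
  have h5 := mul_left_cancel₀ h4 h3
  exact_mod_cast h5

/-- the sum of the numbers of solutions, `x ≠ 0` -/
theorem sum_M (k : ℕ) (x : ZMod n) : ∑ y ∈ (univ : Finset (ZMod n)).erase 0, M k x y =
    ∑ i ∈ range k, (((univ : Finset (ZMod n)).erase 0).filter
      (fun y => x = ((i + 1 : ℕ) : ZMod n) * y)).card := by
  unfold M
  simp only [card_filter]
  exact sum_comm

theorem sol_one {i : ℕ} (hi : i + 1 < n.minFac) (x : ZMod n) :
    (((univ : Finset (ZMod n)).erase 0).filter (fun y => x = ((i + 1 : ℕ) : ZMod n) * y)).card ≤ 1 := by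
  rw [card_le_one]
  intro a ha b hb
  rw [mem_filter] at ha hb
  have hu := unit_of_lt (n := n) (Nat.succ_ne_zero i) hi
  exact hu.mul_left_cancel (ha.2.symm.trans hb.2)

theorem sol_p (x : ZMod n) (hp : 1 ≤ n.minFac) :
    (((univ : Finset (ZMod n)).erase 0).filter
      (fun y => x = ((n.minFac : ℕ) : ZMod n) * y)).card ≤ n.minFac := by
  have hn : 0 < n := Nat.pos_of_ne_zero (NeZero.ne n)
  refine le_trans (card_le_card_of_injOn (t := range n.minFac) (fun y => n.minFac * y.val / n) ?_ ?_)
    (card_range _).le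
  · intro y _
    simp only [coe_range, Set.mem_Iio]
    rw [Nat.div_lt_iff_lt_mul hn]
    exact Nat.mul_lt_mul_of_pos_left (ZMod.val_lt y) hp
  · intro a ha b hb hab
    simp only [coe_filter, Set.mem_setOf_eq] at ha hb hab
    have e : ∀ y : ZMod n, x = ((n.minFac : ℕ) : ZMod n) * y → n.minFac * y.val % n = x.val := by
      intro y hy
      rw [hy, ZMod.val_mul, ZMod.val_natCast]
      exact ((Nat.mod_modEq n.minFac n).mul_right _).symm
    have h1 := Nat.div_add_mod (n.minFac * a.val) n
    have h2 := Nat.div_add_mod (n.minFac * b.val) n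
    rw [e a ha.2] at h1
    rw [e b hb.2] at h2
    rw [hab] at h1
    have h3 : n.minFac * a.val = n.minFac * b.val := by omega
    exact ZMod.val_injective n (Nat.eq_of_mul_eq_mul_left hp h3)

theorem choose_ge {m k : ℕ} (h1 : 1 ≤ k) (h2 : k + 1 ≤ m) : m ≤ m.choose k := by
  induction m generalizing k with
  | zero => omega
  | succ m ih =>
    obtain ⟨j, rfl⟩ : ∃ j, k = j + 1 := ⟨k - 1, by omega⟩
    rw [Nat.choose_succ_succ']
    rcases Nat.eq_zero_or_pos j with h | h
    · subst h
      simp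
      try omega
    · rcases Nat.lt_or_ge (j + 1) m with h3 | h3
      · have a := ih (k := j) h (by omega)
        have b := ih (k := j + 1) (by omega) (by omega)
        omega
      · have h4 : j + 1 = m := by omega
        have h5 := ih (k := j) h (by omega)
        rw [h4, Nat.choose_self]
        omega

theorem choose_gt {m k : ℕ} (h1 : 2 ≤ k) (h2 : k + 2 ≤ m) : m < m.choose k := by
  obtain ⟨m', rfl⟩ : ∃ m', m = m' + 1 := ⟨m - 1, by omega⟩
  obtain ⟨j, rfl⟩ : ∃ j, k = j + 1 := ⟨k - 1, by omega⟩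
  rw [Nat.choose_succ_succ']
  have a := choose_ge (m := m') (k := j) (by omega) (by omega)
  have b := choose_ge (m := m') (k := j + 1) (by omega) (by omega)
  omega

/-- emptiness, `x = 0` -/
theorem card_zero (hn : 2 ≤ n) {k : ℕ} (hkp : k < n.minFac) :
    (n : ℤ) * (((Blocks n k 0).card : ℤ) - (-1) ^ k) + (-1) ^ k = ((n - 1).choose k : ℤ) := by
  obtain ⟨a, ha⟩ := c_star n
  have h1 := c_total ((univ : Finset (ZMod n)).erase 0) k
  rw [card_erase_of_mem (mem_univ _), card_univ, ZMod.card] at h1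
  have h2 : (∑ z : ZMod n, (c ((univ : Finset (ZMod n)).erase 0) k z : ℤ)) = ((n - 1).choose k : ℤ) := by
    exact_mod_cast h1
  rw [sum_congr rfl fun z _ => ha k hkp z, sum_add_distrib, sum_const, card_univ, ZMod.card,
    ← mul_sum, sum_ite_eq' univ (0 : ZMod n)] at h2
  have h3 := ha k hkp 0
  rw [if_pos rfl, mul_one] at h3
  rw [card_blocks, h3]
  simp only [mem_univ, if_true, mul_one, nsmul_eq_mul] at h2
  linarith

theorem nonempty_iff (hn : 2 ≤ n) {k : ℕ} (hk : 1 ≤ k) (hk2 : k + 2 ≤ n) (hkp : k < n.minFac) :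
    (Blocks n k 0).Nonempty ↔ 2 ≤ k ∧ k + 3 ≤ n := by
  have h := card_zero hn hkp
  constructor
  · intro h1
    have h2 : 1 ≤ (Blocks n k 0).card := Finset.card_pos.2 h1
    by_contra hcon
    have h3 : k = 1 ∨ k + 2 = n := by omega
    have hc : (n - 1).choose k = n - 1 := by
      rcases h3 with h3 | h3
      · rw [h3, Nat.choose_one_right]
      · have : n - 1 = k + 1 := by omega
        rw [this, Nat.choose_succ_self_right]
    have hodd : Odd k := by
      rcases h3 with h3 | h3
      · rw [h3]; exact odd_one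
      · rcases Nat.even_or_odd k with h4 | h4
        · exfalso
          have h5 : Even n := by rw [← h3]; exact h4.add (by norm_num)
          have h6 : n.minFac = 2 := (Nat.minFac_eq_two_iff n).2 h5.two_dvd
          obtain ⟨u, hu⟩ := h4
          omega
        · exact h4
    rw [hc, hodd.neg_one_pow] at h
    have h4 : ((n - 1 : ℕ) : ℤ) = (n : ℤ) - 1 := by
      rw [Nat.cast_sub (by omega)]
      simp
    rw [h4] at h
    have h5 : (2 : ℤ) ≤ n := by exact_mod_cast hn
    have h6 : (1 : ℤ) ≤ (Blocks n k 0).card := by exact_mod_cast h2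
    nlinarith
  · rintro ⟨h1, h2⟩
    by_contra hcon
    rw [Finset.not_nonempty_iff_eq_empty] at hcon
    rw [hcon, card_empty] at h
    have h3 := choose_gt (m := n - 1) (k := k) h1 (by omega)
    have h4 : ((n - 1 : ℕ) : ℤ) = (n : ℤ) - 1 := by
      rw [Nat.cast_sub (by omega)]
      simp
    have h5 : ((n - 1 : ℕ) : ℤ) < ((n - 1).choose k : ℤ) := by exact_mod_cast h3
    have h6 : (2 : ℤ) ≤ n := by exact_mod_cast hn
    rcases neg_one_pow_eq_or ℤ k with h7 | h7
    · rw [h7] at h
      push_cast at h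
      nlinarith
    · rw [h7] at h
      push_cast at h
      nlinarith

theorem M_zero {k : ℕ} (hkp : k < n.minFac) {y : ZMod n} (hy : y ≠ 0) : M k 0 y = 0 := by
  unfold M
  rw [card_eq_zero, filter_eq_empty_iff]
  intro i hi h
  rw [mem_range] at hi
  have hu := unit_of_lt (n := n) (Nat.succ_ne_zero i) (by omega)
  exact hy ((hu.mul_right_eq_zero).1 h.symm)

theorem M_self {k : ℕ} (hk : 1 ≤ k) (x : ZMod n) : 1 ≤ M k x x := by
  unfold M
  refine Finset.card_pos.2 ⟨0, ?_⟩
  rw [mem_filter, mem_range]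
  refine ⟨hk, ?_⟩
  simp

/-- no 1-designs for `x ≠ 0`, `k < p` -/
theorem not_of_ne {k : ℕ} (hk : 1 ≤ k) (hk2 : k + 2 ≤ n) (hkp : k < n.minFac) {x : ZMod n} (hx : x ≠ 0) :
    ¬ IsOneDesign n k x := by
  intro h
  have h1 : ∀ y ∈ (univ : Finset (ZMod n)).erase 0, 1 ≤ M k x y := by
    intro y hy
    rw [mem_erase] at hy
    rw [M_const hk hkp.le h hy.1 hx]
    exact M_self hk x
  have h2 := sum_le_sum h1
  rw [sum_const, card_erase_of_mem (mem_univ _), card_univ, ZMod.card, sum_M] at h2
  have h3 : ∑ i ∈ range k, (((univ : Finset (ZMod n)).erase 0).filter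
      (fun y => x = ((i + 1 : ℕ) : ZMod n) * y)).card ≤ ∑ i ∈ range k, 1 :=
    sum_le_sum fun i hi => sol_one (by rw [mem_range] at hi; omega) x
  rw [sum_const, card_range] at h3
  simp only [smul_eq_mul, mul_one] at h2 h3
  omega

theorem iff_lt (hn : 2 ≤ n) {k : ℕ} (hk : 1 ≤ k) (hk2 : k + 2 ≤ n) (hkp : k < n.minFac) (x : ZMod n) :
    IsOneDesign n k x ↔ x = 0 ∧ 2 ≤ k ∧ k + 3 ≤ n := by
  constructor
  · intro h
    have hx : x = 0 := by
      by_contra hx
      exact not_of_ne hk hk2 hkp hx h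
    subst hx
    exact ⟨rfl, (nonempty_iff hn hk hk2 hkp).1 h.1⟩
  · rintro ⟨rfl, h2⟩
    refine ⟨(nonempty_iff hn hk hk2 hkp).2 h2, ?_⟩
    obtain ⟨e, he⟩ := N_form n
    refine ⟨(e k).toNat, fun y hy => ?_⟩
    have h3 := he k hk hkp.le 0 y hy
    rw [M_zero hkp hy] at h3
    simp only [Nat.cast_zero, mul_zero, add_zero] at h3
    rw [← h3, Int.toNat_natCast]

theorem four : ∀ x : ZMod 4, x ≠ 0 → Blocks 4 2 x = ∅ ∨
    ((Blocks 4 2 x).filter (fun T => (1 : ZMod 4) ∈ T)).card ≠
      ((Blocks 4 2 x).filter (fun T => (2 : ZMod 4) ∈ T)).card ∨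
    ((Blocks 4 2 x).filter (fun T => (2 : ZMod 4) ∈ T)).card ≠
      ((Blocks 4 2 x).filter (fun T => (3 : ZMod 4) ∈ T)).card := by
  decide

/-- `k = p < n` -/
theorem not_p (hkn : n.minFac + 2 ≤ n) (x : ZMod n) : ¬ IsOneDesign n n.minFac x := by
  have hn : 2 ≤ n := by omega
  have hp : n.minFac.Prime := Nat.minFac_prime (by omega)
  have hp1 := hp.one_lt
  intro h
  rcases eq_or_ne x 0 with hx | hx
  · subst hx
    obtain ⟨q, hq⟩ := Nat.minFac_dvd n
    have hq0 : 0 < q := by
      rcases Nat.eq_zero_or_pos q with h0 | h0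
      · rw [h0, mul_zero] at hq; omega
      · exact h0
    have hqn : q < n := by
      conv_rhs => rw [hq]
      nlinarith
    have hqne : ((q : ℕ) : ZMod n) ≠ 0 := by
      intro h0
      rw [ZMod.natCast_eq_zero_iff] at h0
      exact absurd (Nat.le_of_dvd hq0 h0) (by omega)
    have h1ne : (1 : ZMod n) ≠ 0 := by
      intro h0
      have h1 : ((1 : ℕ) : ZMod n) = 0 := by simpa using h0
      rw [ZMod.natCast_eq_zero_iff] at h1
      exact absurd (Nat.le_of_dvd one_pos h1) (by omega)
    have h1 := M_const (by omega) le_rfl h hqne h1ne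
    have h2 : M n.minFac 0 (1 : ZMod n) = 0 := by
      unfold M
      rw [card_eq_zero, filter_eq_empty_iff]
      intro i hi h0
      rw [mem_range] at hi
      rw [mul_one, eq_comm, ZMod.natCast_eq_zero_iff] at h0
      exact absurd (Nat.le_of_dvd (by omega) h0) (by omega)
    have h3 : 1 ≤ M n.minFac 0 ((q : ℕ) : ZMod n) := by
      unfold M
      refine Finset.card_pos.2 ⟨n.minFac - 1, ?_⟩
      rw [mem_filter, mem_range]
      refine ⟨by omega, ?_⟩
      rw [show n.minFac - 1 + 1 = n.minFac by omega, ← Nat.cast_mul, ← hq]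
      simp
    omega
  · have h1 : ∀ y ∈ (univ : Finset (ZMod n)).erase 0, 1 ≤ M n.minFac x y := by
      intro y hy
      rw [mem_erase] at hy
      rw [M_const (by omega) le_rfl h hy.1 hx]
      exact M_self (by omega) x
    have h2 := sum_le_sum h1
    rw [sum_const, card_erase_of_mem (mem_univ _), card_univ, ZMod.card, sum_M] at h2
    obtain ⟨j, hj⟩ : ∃ j, n.minFac = j + 1 := ⟨n.minFac - 1, by omega⟩
    have h4 := sol_p x (by omega)
    have h5 : (((univ : Finset (ZMod n)).erase 0).filter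
      (fun y => x = ((j + 1 : ℕ) : ZMod n) * y)).card ≤ j + 1 := by
      rw [← hj]
      exact h4
    have h3 : ∑ i ∈ range j, (((univ : Finset (ZMod n)).erase 0).filter
        (fun y => x = ((i + 1 : ℕ) : ZMod n) * y)).card ≤ ∑ i ∈ range j, 1 :=
      sum_le_sum fun i hi => sol_one (by rw [mem_range] at hi; omega) x
    rw [sum_const, card_range] at h3
    rw [hj, sum_range_succ] at h2
    simp only [smul_eq_mul, mul_one] at h2 h3
    -- `n ≤ 2 p`
    have h6 : n ≤ 2 * n.minFac := by omega
    obtain ⟨q, hq⟩ := Nat.minFac_dvd n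
    have hq2 : q = 2 := by
      have : q ≤ 2 := by nlinarith
      have : q ≠ 0 := by rintro rfl; omega
      have : q ≠ 1 := by rintro rfl; omega
      omega
    have hev : 2 ∣ n := ⟨n.minFac, by rw [hq2] at hq; omega⟩
    have hm2 : n.minFac = 2 := (Nat.minFac_eq_two_iff n).2 hev
    have hn4 : n = 4 := by rw [hq2, hm2] at hq; omega
    subst hn4
    rw [hm2] at h
    obtain ⟨hT, r, hr⟩ := h
    have a1 := hr 1 (by decide)
    have a2 := hr 2 (by decide)
    have a3 := hr 3 (by decide)
    rcases four x hx with h0 | h0 | h0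
    · rw [h0] at hT
      exact Finset.not_nonempty_empty hT
    · exact h0 (a1.trans a2.symm)
    · exact h0 (a2.trans a3.symm)

/-- the full set -/
theorem blocks_full (hn : 2 ≤ n) (x : ZMod n) (T : Finset (ZMod n)) :
    T ∈ Blocks n (n - 1) x ↔ T = univ.erase 0 ∧ ∑ t : ZMod n, t = x := by
  have hc : ((univ : Finset (ZMod n)).erase 0).card = n - 1 := by
    rw [card_erase_of_mem (mem_univ _), card_univ, ZMod.card]
  have hs : ∑ t ∈ (univ : Finset (ZMod n)).erase 0, t = ∑ t : ZMod n, t := sum_erase _ rfl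
  unfold Blocks
  rw [mem_filter, mem_powersetCard]
  constructor
  · rintro ⟨⟨h1, h2⟩, h3⟩
    have h4 := eq_of_subset_of_card_le h1 (by rw [hc, h2])
    refine ⟨h4, ?_⟩
    rw [← hs, ← h4]
    exact h3
  · rintro ⟨rfl, h2⟩
    exact ⟨⟨subset_rfl, hc⟩, by rw [hs]; exact h2⟩

theorem iff_full (hn : 2 ≤ n) (x : ZMod n) : IsOneDesign n (n - 1) x ↔ x = ∑ t : ZMod n, t := by
  constructor
  · rintro ⟨⟨T, hT⟩, -⟩
    exact ((blocks_full hn x T).1 hT).2.symm
  · intro h
    have h1 : Blocks n (n - 1) x = {univ.erase 0} := by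
      ext T
      rw [blocks_full hn, mem_singleton]
      exact ⟨fun h => h.1, fun h' => ⟨h', h.symm⟩⟩
    refine ⟨by rw [h1]; exact singleton_nonempty _, 1, fun y hy => ?_⟩
    rw [h1, filter_singleton, if_pos (by rw [mem_erase]; exact ⟨hy, mem_univ _⟩), card_singleton]

/-- complements -/
theorem compl_mem {k : ℕ} (hk : k + 1 ≤ n) {x : ZMod n} {T : Finset (ZMod n)} (hT : T ∈ Blocks n k x) :
    univ.erase 0 \ T ∈ Blocks n (n - 1 - k) (∑ t : ZMod n, t - x) := by
  have hc : ((univ : Finset (ZMod n)).erase 0).card = n - 1 := by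
    rw [card_erase_of_mem (mem_univ _), card_univ, ZMod.card]
  have hs : ∑ t ∈ (univ : Finset (ZMod n)).erase 0, t = ∑ t : ZMod n, t := sum_erase _ rfl
  unfold Blocks at hT ⊢
  rw [mem_filter, mem_powersetCard] at hT ⊢
  obtain ⟨⟨h1, h2⟩, h3⟩ := hT
  refine ⟨⟨sdiff_subset, ?_⟩, ?_⟩
  · rw [card_sdiff_of_subset h1, hc, h2]
  · have h4 := sum_sdiff (f := fun t : ZMod n => t) h1
    rw [hs, h3] at h4
    rw [← h4]
    ring

theorem compl_design {k : ℕ} (hk : k + 1 ≤ n) {x : ZMod n} (h : IsOneDesign n k x) :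
    IsOneDesign n (n - 1 - k) (∑ t : ZMod n, t - x) := by
  obtain ⟨⟨T, hT⟩, r, hr⟩ := h
  refine ⟨⟨_, compl_mem hk hT⟩, (Blocks n k x).card - r, fun y hy => ?_⟩
  have h2 := card_filter_add_card_filter_not (s := Blocks n k x) (fun T => y ∈ T)
  rw [hr y hy] at h2
  have hback : ∀ S : Finset (ZMod n), S ∈ Blocks n (n - 1 - k) (∑ t : ZMod n, t - x) →
      univ.erase 0 \ S ∈ Blocks n k x := by
    intro S hS
    have := compl_mem (by omega) hS
    rwa [show n - 1 - (n - 1 - k) = k by omega, sub_sub_cancel] at this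
  have hsub : ∀ (m : ℕ) (z : ZMod n) (S : Finset (ZMod n)), S ∈ Blocks n m z → S ⊆ univ.erase 0 := by
    intro m z S hS
    unfold Blocks at hS
    rw [mem_filter, mem_powersetCard] at hS
    exact hS.1.1
  have h3 : ((Blocks n (n - 1 - k) (∑ t : ZMod n, t - x)).filter (fun T => y ∈ T)).card =
      ((Blocks n k x).filter (fun T => ¬ y ∈ T)).card := by
    refine card_nbij' (fun S => univ.erase 0 \ S) (fun S => univ.erase 0 \ S) ?_ ?_ ?_ ?_
    · intro S hS
      simp only [coe_filter, Set.mem_setOf_eq] at hS ⊢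
      exact ⟨hback S hS.1, by rw [mem_sdiff]; exact fun h => h.2 hS.2⟩
    · intro S hS
      simp only [coe_filter, Set.mem_setOf_eq] at hS ⊢
      refine ⟨compl_mem hk hS.1, ?_⟩
      rw [mem_sdiff, mem_erase]
      exact ⟨⟨hy, mem_univ _⟩, hS.2⟩
    · intro S hS
      simp only [coe_filter, Set.mem_setOf_eq] at hS
      exact Finset.sdiff_sdiff_eq_self (hsub _ _ S hS.1)
    · intro S hS
      simp only [coe_filter, Set.mem_setOf_eq] at hS
      exact Finset.sdiff_sdiff_eq_self (hsub _ _ S hS.1)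
  rw [h3]
  omega

theorem compl_iff {k : ℕ} (hk : k + 1 ≤ n) (x : ZMod n) : IsOneDesign n k x ↔
    IsOneDesign n (n - 1 - k) (∑ t : ZMod n, t - x) := by
  refine ⟨compl_design hk, fun h => ?_⟩
  have := compl_design (by omega) h
  rwa [show n - 1 - (n - 1 - k) = k by omega, sub_sub_cancel] at this

theorem sum_odd (h : Odd n) : ∑ t : ZMod n, t = 0 := by
  have h1 : ∑ t : ZMod n, t = ∑ t : ZMod n, -t := (Equiv.sum_comp (Equiv.neg (ZMod n)) (fun t => t)).symm
  rw [sum_neg_distrib] at h1
  have h2 : (2 : ZMod n) * ∑ t : ZMod n, t = 0 := by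
    rw [two_mul]
    nth_rewrite 1 [h1]
    exact neg_add_cancel _
  have h3 : IsUnit ((2 : ℕ) : ZMod n) := by
    rw [ZMod.isUnit_iff_coprime]
    exact (Nat.coprime_two_left).2 h
  rw [Nat.cast_ofNat] at h3
  exact (h3.mul_right_eq_zero).1 h2

theorem main (hn : 2 ≤ n) {k : ℕ} (hk : 1 ≤ k) (hk2 : k + 1 ≤ n)
    (hr : k ≤ n.minFac ∨ n - 1 - k ≤ n.minFac) (x : ZMod n) :
    IsOneDesign n k x ↔ x = ∑ t : ZMod n, t ∧
      (k = n - 1 ∨ (2 ≤ k ∧ k + 3 ≤ n ∧ (k < n.minFac ∨ n - 1 - k < n.minFac))) := by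
  have low : ∀ (k : ℕ) (x : ZMod n), 1 ≤ k → k + 2 ≤ n → k ≤ n.minFac → (IsOneDesign n k x ↔
      x = ∑ t : ZMod n, t ∧ (2 ≤ k ∧ k + 3 ≤ n ∧ k < n.minFac)) := by
    intro k x h1 h2 h3
    rcases h3.lt_or_eq with h4 | h4
    · rw [iff_lt hn h1 h2 h4]
      constructor
      · rintro ⟨hx, h5, h6⟩
        have hodd : Odd n := by
          rcases Nat.even_or_odd n with h7 | h7
          · exfalso
            have h8 : n.minFac = 2 := (Nat.minFac_eq_two_iff n).2 h7.two_dvd
            omega
          · exact h7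
        exact ⟨by rw [sum_odd hodd]; exact hx, h5, h6, h4⟩
      · rintro ⟨hx, h5, h6, -⟩
        have hodd : Odd n := by
          rcases Nat.even_or_odd n with h7 | h7
          · exfalso
            have h8 : n.minFac = 2 := (Nat.minFac_eq_two_iff n).2 h7.two_dvd
            omega
          · exact h7
        rw [sum_odd hodd] at hx
        exact ⟨hx, h5, h6⟩
    · constructor
      · intro h5
        rw [h4] at h5
        exact absurd h5 (not_p (by omega) x)
      · rintro ⟨-, -, -, h5⟩
        omega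
  rcases Nat.lt_or_ge k (n - 1) with h1 | h1
  · rcases hr with h2 | h2
    · rw [low k x hk (by omega) h2]
      constructor
      · rintro ⟨a, b, c, d⟩
        exact ⟨a, Or.inr ⟨b, c, Or.inl d⟩⟩
      · rintro ⟨a, b | ⟨b, c, d | d⟩⟩
        · omega
        · exact ⟨a, b, c, d⟩
        · refine ⟨a, b, c, ?_⟩
          -- `n - 1 < 2 p`, so `n = p`
          have hp : n.minFac ∣ n := Nat.minFac_dvd n
          obtain ⟨q, hq⟩ := hp
          have hq1 : q < 2 ∨ q = 2 ∨ 3 ≤ q := by omega
          rcases hq1 with h3 | h3 | h3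
          · have : q ≠ 0 := by rintro rfl; omega
            have : q = 1 := by omega
            subst this
            omega
          · have h7 : n.minFac = 2 := (Nat.minFac_eq_two_iff n).2 ⟨n.minFac, by rw [h3] at hq; omega⟩
            omega
          · have : 3 * n.minFac ≤ n := by nlinarith
            have : 1 ≤ n.minFac := Nat.minFac_pos n
            omega
    · rw [compl_iff hk2, low (n - 1 - k) _ (by omega) (by omega) h2]
      constructor
      · rintro ⟨a, b, c, d⟩
        have hodd : Odd n := by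
          rcases Nat.even_or_odd n with h7 | h7
          · exfalso
            have h8 : n.minFac = 2 := (Nat.minFac_eq_two_iff n).2 h7.two_dvd
            omega
          · exact h7
        rw [sum_odd hodd] at a ⊢
        refine ⟨?_, Or.inr ⟨by omega, by omega, Or.inr d⟩⟩
        rw [zero_sub, neg_eq_zero] at a
        exact a
      · rintro ⟨a, b | ⟨b, c, d⟩⟩
        · omega
        · have h5 : n - 1 - k < n.minFac ∨ n.minFac = n - 1 - k := by omega
          have h6 : n - 1 - k < n.minFac := by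
            rcases h5 with h5 | h5
            · exact h5
            · rcases d with d | d
              · exfalso
                obtain ⟨q, hq⟩ := Nat.minFac_dvd n
                have hq1 : q < 2 ∨ q = 2 ∨ 3 ≤ q := by omega
                rcases hq1 with h3 | h3 | h3
                · have : q ≠ 0 := by rintro rfl; omega
                  have : q = 1 := by omega
                  subst this
                  omega
                · have h7 : n.minFac = 2 := (Nat.minFac_eq_two_iff n).2 ⟨n.minFac, by rw [h3] at hq; omega⟩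
                  omega
                · have : 3 * n.minFac ≤ n := by nlinarith
                  have : 1 ≤ n.minFac := Nat.minFac_pos n
                  omega
              · exact d
          have hodd : Odd n := by
            rcases Nat.even_or_odd n with h7 | h7
            · exfalso
              have h8 : n.minFac = 2 := (Nat.minFac_eq_two_iff n).2 h7.two_dvd
              omega
            · exact h7
          rw [sum_odd hodd] at a ⊢
          exact ⟨by rw [a, sub_zero], by omega, by omega, h6⟩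
  · have : k = n - 1 := by omega
    subst this
    rw [iff_full hn]
    exact ⟨fun h => ⟨h, Or.inl rfl⟩, fun h => h.1⟩

end Pool.Agent.J4.H16.SD
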